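import Pool.Agent.Helper60.PlzA.Goals

/-!
# Project PLA (MP_8e7d5e_co): walks and functions of the two ends (goal `S_PAIR`)
-/

set_option autoImplicit false

namespace Pool.Agent.Helper56.PlzA

open Finset Pool.Agent.Helper60.PlzA

open scoped Classical

variable {V : Type}

lemma ev_snoc_lt {L : ℕ} (x : Fin (L + 1) → V) (w : V) {i : ℕ} (hi : i ≤ L) :
    ev (k := L + 1) (Fin.snoc (α := fun _ => V) x w) i = ev x i := by
  have h1 : min i (L + 1) = i := min_eq_left (by omega)
  have h2 : min i L = i := min_eq_left hi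
  have h3 : (⟨min i (L + 1), Nat.lt_succ_of_le (min_le_right i (L + 1))⟩ : Fin (L + 1 + 1)) =
      Fin.castSucc ⟨min i L, Nat.lt_succ_of_le (min_le_right i L)⟩ := by
    apply Fin.ext
    show min i (L + 1) = min i L
    rw [h1, h2]
  unfold ev
  rw [h3, Fin.snoc_castSucc]

lemma ev_snoc_last {L : ℕ} (x : Fin (L + 1) → V) (w : V) :
    ev (k := L + 1) (Fin.snoc (α := fun _ => V) x w) (L + 1) = w := by
  have h3 : (⟨min (L + 1) (L + 1), Nat.lt_succ_of_le (min_le_right (L + 1) (L + 1))⟩ : Fin (L + 1 + 1)) =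
      Fin.last (L + 1) := by
    apply Fin.ext
    show min (L + 1) (L + 1) = L + 1
    simp
  unfold ev
  rw [h3, Fin.snoc_last]

lemma snoc_mem_Wk [Fintype V] (G : SimpleGraph V) {L : ℕ} (x : Fin (L + 1) → V) (w : V) :
    (Fin.snoc (α := fun _ => V) x w : Fin (L + 1 + 1) → V) ∈ Wk G (L + 1) ↔
      x ∈ Wk G L ∧ G.Adj (ev x L) w := by
  unfold Wk
  simp only [mem_filter, mem_univ, true_and]
  constructor
  · intro h
    refine ⟨fun i hi => ?_, ?_⟩
    · have := h i (by omega)
      rwa [ev_snoc_lt x w (by omega), ev_snoc_lt x w (by omega)] at this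
    · have := h L (by omega)
      rwa [ev_snoc_lt x w le_rfl, ev_snoc_last] at this
  · rintro ⟨h1, h2⟩ i hi
    rcases Nat.lt_or_ge i L with h | h
    · rw [ev_snoc_lt x w (by omega), ev_snoc_lt x w (by omega)]
      exact h1 i h
    · have : i = L := by omega
      subst this
      rw [ev_snoc_lt x w le_rfl, ev_snoc_last]
      exact h2

/-- removing the last vertex -/
lemma sum_Wk_succ [Fintype V] (G : SimpleGraph V) (L : ℕ) (f : (Fin (L + 1 + 1) → V) → ℝ) :
    ∑ y ∈ Wk G (L + 1), f y =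
      ∑ x ∈ Wk G L, ∑ w ∈ nbs G (ev x L), f (Fin.snoc (α := fun _ => V) x w) := by
  rw [Finset.sum_sigma']
  refine Finset.sum_nbij' (fun y => ⟨Fin.init y, y (Fin.last (L + 1))⟩)
    (fun p => Fin.snoc (α := fun _ => V) p.1 p.2) ?_ ?_ ?_ ?_ ?_
  · intro y hy
    have h : (Fin.snoc (α := fun _ => V) (Fin.init y) (y (Fin.last (L + 1))) : Fin (L + 1 + 1) → V) ∈
        Wk G (L + 1) := by
      rw [Fin.snoc_init_self]; exact hy
    rw [snoc_mem_Wk] at h
    rw [mem_sigma]
    refine ⟨h.1, ?_⟩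
    unfold nbs
    rw [mem_filter]
    exact ⟨mem_univ _, h.2⟩
  · rintro ⟨x, w⟩ hp
    rw [mem_sigma] at hp
    rw [snoc_mem_Wk]
    refine ⟨hp.1, ?_⟩
    have := hp.2
    unfold nbs at this
    exact (mem_filter.1 this).2
  · intro y _
    exact Fin.snoc_init_self y
  · rintro ⟨x, w⟩ _
    simp only [Fin.init_snoc, Fin.snoc_last]
  · intro y _
    show f y = f (Fin.snoc (α := fun _ => V) (Fin.init y) (y (Fin.last (L + 1))))
    rw [Fin.snoc_init_self]

lemma sum_ends_succ [Fintype V] (G : SimpleGraph V) (L : ℕ) (F : V → V → ℝ) :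
    ∑ y ∈ Wk G (L + 1), F (ev y 0) (ev y (L + 1)) =
      ∑ x ∈ Wk G L, ∑ w ∈ nbs G (ev x L), F (ev x 0) w := by
  rw [sum_Wk_succ G L (fun y => F (ev y 0) (ev y (L + 1)))]
  refine sum_congr rfl fun x _ => sum_congr rfl fun w _ => ?_
  show F (ev (k := L + 1) (Fin.snoc (α := fun _ => V) x w) 0)
    (ev (k := L + 1) (Fin.snoc (α := fun _ => V) x w) (L + 1)) = F (ev x 0) w
  rw [ev_snoc_lt x w (Nat.zero_le L), ev_snoc_last]

theorem pair : S_PAIR := by
  intro V _ G t hd L hL
  induction L, hL using Nat.le_induction with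
  | base =>
    intro F hF
    have h0 : ∑ y ∈ Wk G 1, F (ev y 0) (ev y 1) =
      ∑ x ∈ Wk G 0, ∑ w ∈ nbs G (ev x 0), F (ev x 0) w := sum_ends_succ G 0 F
    rw [h0, Nat.sub_self, pow_zero, one_mul]
    have h1 : Wk G 0 = (univ : Finset (Fin 1 → V)) := by
      unfold Wk
      rw [filter_true_of_mem]
      intro x _ i hi
      omega
    rw [h1]
    have h2 : ∑ x : Fin 1 → V, ∑ w ∈ nbs G (ev (k := 0) x 0), F (ev (k := 0) x 0) w =
        ∑ a, ∑ w ∈ nbs G a, F a w :=
      Fintype.sum_equiv (Equiv.funUnique (Fin 1) V) _ _ fun x => rfl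
    rw [h2]
    refine sum_le_sum fun a _ => ?_
    exact sum_le_sum_of_subset_of_nonneg (subset_univ _) fun b _ _ => hF a b
  | succ L hL ih =>
    intro F hF
    rw [sum_ends_succ]
    have h1 := ih (fun a b => ∑ w ∈ nbs G b, F a w) fun a b => sum_nonneg fun w _ => hF a w
    refine h1.trans ?_
    have h2 : ∀ a, ∑ b, ∑ w ∈ nbs G b, F a w ≤ t * ∑ b, F a b := by
      intro a
      have e1 : ∑ b, ∑ w ∈ nbs G b, F a w = ∑ w, (dgr G w : ℝ) * F a w := by
        unfold nbs
        simp only [sum_filter]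
        rw [sum_comm]
        refine sum_congr rfl fun w _ => ?_
        rw [← sum_filter, sum_const, nsmul_eq_mul]
        congr 2
        unfold dgr nbs
        congr 1
        ext b
        simp only [mem_filter, mem_univ, true_and]
        exact G.adj_comm _ _
      rw [e1, mul_sum]
      refine sum_le_sum fun w _ => ?_
      exact mul_le_mul_of_nonneg_right (by exact_mod_cast hd w) (hF a w)
    have h3 : ∑ a, ∑ b, ∑ w ∈ nbs G b, F a w ≤ t * ∑ a, ∑ b, F a b := by
      rw [mul_sum]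
      exact sum_le_sum fun a _ => h2 a
    calc (t : ℝ) ^ (L - 1) * ∑ a, ∑ b, ∑ w ∈ nbs G b, F a w
        ≤ (t : ℝ) ^ (L - 1) * (t * ∑ a, ∑ b, F a b) :=
          mul_le_mul_of_nonneg_left h3 (by positivity)
      _ = (t : ℝ) ^ (L + 1 - 1) * ∑ a, ∑ b, F a b := by
          rw [← mul_assoc, ← pow_succ]
          congr 2
          omega

end Pool.Agent.Helper56.PlzA
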